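import Pool.Agent.H60.ALT.Nzq
import Pool.Agent.H3.W.Bas

/-!
# Natural labels of two windows over one label of the family

`NzQ`: the natural labels of the windows `v` and `a` over the same label of the family. `nzq_ex`:
their existence on a part; `nzq_rec`: on all events of a subclass with the same record.
-/

set_option autoImplicit false

namespace Pool.W.ALT

open Pool.ALT

open Finset Real MvPolynomial
open Pool.Agent.H49.Ent Pool.Agent.H32.Dense Pool.STK Pool.KA Pool.KSAT Pool.K2S Pool.PB Pool.S6C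
  Pool.GEN Pool.RCD Pool.LA91 Pool.OWN68 Pool.PKG
open Pool.UNJ (ceI)
open Pool.GRD (LbP)
open Pool.V0F (her_extc)


variable {m : ℕ} {Ψ : Pool.ALT.Fml m} {c : ℕ → Fin m} {r₀ : ℕ} {κ : Fin m} {K K₁ Ku Kb : ℕ}
  {w v p₁ p₂ e u p a pa₁ pa₂ ea ua pa : ℝ}


/-- **The pairs of natural labels on all events** of a subclass with the same record. -/
theorem nzq_rec {S : Pool.PB.PCl m} {al : ℝ} {g₀ : ℝ → ℝ} {P : List (Fin m) × Fin m → ℝ → ℝ → ℝ}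
    {θ : ℝ} {P₂ : ℕ → List (Fin m) × Fin m → ℝ → ℝ → ℝ} {θ₂ Eb e₂ : ℕ → ℝ}
    {c : ℕ → Fin m} {Pt : ℝ → ℝ → ℝ} {r : ℝ → ℝ} {hr K₀ g : ℝ} {L T : ℕ → ℝ → ℝ → ℝ}
    {Sl : ℕ → ℝ} {κg : ℕ → Pool.PKG.Kg} {G : Set ℝ} {S₀ N : ℕ} {A V : ℕ → ℝ} {S₂ N' : ℕ} {V' : ℕ → ℝ}
    {K ε q t : ℝ}
    (Rc : Pool.W.PKG.RecG S al g₀ P θ P₂ θ₂ Eb e₂ c Pt r hr K₀ g L T Sl κg G S₀ N A V S₂ N' V' K ε q t)
    {Ψ : Pool.ALT.Fml m} {D : ℕ} {w v a p q' r' n h d p₁ p₂ eN uN pN : ℝ}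
    (H : Pool.ALT.AlpD S Ψ c r₀ κ D w v a p q' r' n h d p₁ p₂ eN uN pN)
    (hex : Pool.S6C.Bas S (fun J F A => ∃ (V : Type) (z : Pool.GEN.PtT F → V) (z' : Pool.GEN.LnT F → V)
      (G : V → MvPolynomial (Option (Fin m)) ℝ),
      Pool.ALT.NzF Ψ c r₀ κ D D D w v p₁ p₂ eN uN pN J F A V z z' G)) :
    ∃ S' : Pool.PB.PCl m, (∀ (τ : ℝ) (J : ℕ) (F : Pool.KA.Fam m J) (A : F.Ω → Prop),
        S'.St τ J F A → S.St τ J F A) ∧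
      Pool.W.PKG.RecG S' al g₀ P θ P₂ θ₂ Eb e₂ c Pt r hr K₀ g L T Sl κg G S₀ N A V S₂ N' V' K ε q t ∧
      ∃ pa₁ pa₂ ea ua pa : ℝ, 0 ≤ ea ∧ p + q' ≤ pa ∧ p + q' + ea < n ∧ ua ≤ n ∧
      Pool.ALT.NzO S' Ψ c r₀ κ D D D w a pa₁ pa₂ ea ua pa ∧
      Pool.S6C.Bas S' (fun J F A => ∃ (V : Type) (z : Pool.GEN.PtT F → V) (z' : Pool.GEN.LnT F → V)
        (G : V → MvPolynomial (Option (Fin m)) ℝ),
        Pool.ALT.NzQ Ψ c r₀ κ D D D D w v p₁ p₂ eN uN pN a pa₁ pa₂ ea ua pa J F A V z z' G) := by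
  classical
  obtain ⟨pa₁, pa₂, ea, ua, pa, t1, t2, t3, t4, t5, t6, t7⟩ := H.top
  have hex2 := Pool.ALT.nzq_ex (Kb := D) t5 H.hs hex t6 t7
  obtain ⟨S', h1, h2, h3⟩ := Pool.V0F.her_extc (ι := Unit) Rc.ne (fun _ J F A =>
      ∃ (V : Type) (z : Pool.GEN.PtT F → V) (z' : Pool.GEN.LnT F → V)
        (G : V → MvPolynomial (Option (Fin m)) ℝ),
        Pool.ALT.NzQ Ψ c r₀ κ D D D D w v p₁ p₂ eN uN pN a pa₁ pa₂ ea ua pa J F A V z z' G)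
    (fun _ J F A B hB => by
      rintro ⟨V, z, z', G, hG⟩
      exact ⟨V, z, z', G, Pool.ALT.NzQ.hs H.hs J F A B V z z' G hB hG⟩) (fun _ => ⟨8, hex2⟩)
  exact ⟨S', h2, Rc.sub h1 h2, pa₁, pa₂, ea, ua, pa, t1, t2, t3, t4, t5.sub h2, h3 ()⟩

end Pool.W.ALT
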