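import Pool.Agent.H60.ALT.Alo
import Pool.Agent.H31.W.H60.ALT.Nzq
import Pool.Agent.H31.W.H92.ALT.Sl4
import Pool.Agent.H3.W.Bas
import Pool.Agent.H57.SWC.Lxm

/-!
# The output of the alternative, with the pairs of natural labels

`AlO`: the whole output of `alb_rec`, and the pairs of natural labels of the windows `v` and `a`
over the same label of the family, on all events. `alo_rec`: as `alb_rec`.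
-/

set_option autoImplicit false

namespace Pool.W.ALT

open Pool.ALT

open Finset Real MvPolynomial
open Pool.Agent.H49.Ent Pool.Agent.H32.Dense Pool.STK Pool.KA Pool.KSAT Pool.K2S Pool.PB Pool.S6C
  Pool.GEN Pool.RCD Pool.LA91 Pool.OWN68 Pool.PKG
open Pool.UNJ (ceI)
open Pool.GRD (LbP)
open Pool.V0F (LbU her_extc)


variable {r₀ : ℕ} {S : Pool.PB.PCl (r₀ + 2)} {c : ℕ → Fin (r₀ + 2)} {L : ℕ → ℝ → ℝ → ℝ} {D N' : ℕ}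
  {V' : ℕ → ℝ} {i j : ℕ} {R h δ lam rr ℓ g₂ X η μ e₀ π₀ q t : ℝ} {Ψ : Pool.ALT.Fml (r₀ + 2)}
  {w p₁ p₂ eN uN pN pa₁ pa₂ ea ua pa : ℝ}

theorem AlO.sub {S' : Pool.PB.PCl (r₀ + 2)} (hS : Pool.ALT.SubC S' S)
    (H : Pool.W.ALT.AlO S c L D N' V' i j R h δ lam rr ℓ g₂ X η μ e₀ π₀ q t Ψ w p₁ p₂ eN uN pN pa₁ pa₂ ea ua
      pa) :
    Pool.W.ALT.AlO S' c L D N' V' i j R h δ lam rr ℓ g₂ X η μ e₀ π₀ q t Ψ w p₁ p₂ eN uN pN pa₁ pa₂ ea ua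
      pa :=
  { H with
    nzo := H.nzo.sub hS
    alp := fun n h1 h2 => (H.alp n h1 h2).sub hS
    nza := H.nza.sub hS
    nzq := H.nzq.sub hS
    blb := fun k h1 h2 h3 h4 h5 h6 h7 h8 a1 a2 a3 a4 =>
      (H.blb k h1 h2 h3 h4 h5 h6 h7 h8 a1 a2 a3 a4).sub hS
    lab := fun k hk => by
      obtain ⟨E, Eu, h⟩ := H.lab k hk
      exact ⟨E, Eu, h.sub hS⟩ }


/-- The data of the family of labels. -/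
theorem AlO.fam (H : Pool.W.ALT.AlO S c L D N' V' i j R h δ lam rr ℓ g₂ X η μ e₀ π₀ q t Ψ w p₁ p₂ eN uN pN
    pa₁ pa₂ ea ua pa) (hμ : 0 ≤ μ) (J : ℕ) (F : Pool.KA.Fam (r₀ + 2) J) (A : F.Ω → Prop) (V : Type)
    (z : Pool.GEN.PtT F → V) (z' : Pool.GEN.LnT F → V) (G : V → MvPolynomial (Option (Fin (r₀ + 2))) ℝ)
    (hG : Ψ J F A V z z' G) :
    (∀ y, (G y).totalDegree ≤ D) ∧ (∀ y, Pool.ALT.DpI ((range (r₀ + 1)).image c) (G y)) ∧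
      ∀ ω, A ω → z (Pool.PB.ptr F J ω) = z' (Pool.KSAT.slam F ⌊w * J⌋₊ ω) := by
  obtain ⟨a1, a2, a3, -, -, -, a4⟩ := (H.alp 1 (by linarith) le_rfl).lb
  have h1 := a4 J F A V z z' G hG
  exact ⟨h1.deg, h1.dep, h1.cls⟩


/-- **The natural labels, in pairs, the data for the own path, and the slopes at the later
windows**, for the chain windows of a record. -/
theorem alo_rec (r₀ S₀ : ℕ) (hS₀ : 1 ≤ S₀) : ∃ D₀ : ℕ, 1 ≤ D₀ ∧ ∀ D : ℕ, D₀ ≤ D →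
    ∀ {b h δ lam rr gg R K₁ ℓ₀ X g₂ : ℝ}, 0 < b → 0 < h → h ≤ 1 → 0 < δ → 0 < lam → lam ≤ rr →
    0 < gg → 0 ≤ R → 0 ≤ K₁ → 0 < ℓ₀ → 0 < X → 0 < g₂ → 2 * X ≤ b * g₂ →
    ∃ ℓ h₁ ε₁ e₁ : ℝ, 0 < ℓ ∧ ℓ ≤ ℓ₀ ∧ 0 < h₁ ∧ 0 < ε₁ ∧ 0 < e₁ ∧ ∀ η : ℝ, 0 < η → η ≤ h₁ →
    ∀ {S : Pool.PB.PCl (r₀ + 2)} {al : ℝ} {g₀ : ℝ → ℝ}
    {P : List (Fin (r₀ + 2)) × Fin (r₀ + 2) → ℝ → ℝ → ℝ}
    {θ : ℝ} {P₂ : ℕ → List (Fin (r₀ + 2)) × Fin (r₀ + 2) → ℝ → ℝ → ℝ} {θ₂ Eb e₂ : ℕ → ℝ}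
    {c : ℕ → Fin (r₀ + 2)} {Pt : ℝ → ℝ → ℝ} {r : ℝ → ℝ} {hr K₀ g : ℝ} {L T : ℕ → ℝ → ℝ → ℝ}
    {Sl : ℕ → ℝ} {κ : ℕ → Pool.PKG.Kg} {G : Set ℝ} {N : ℕ} {A V : ℕ → ℝ} {S₂ N' : ℕ} {V' : ℕ → ℝ}
    {K ε q t : ℝ}
    (_ : Pool.W.PKG.RecG S al g₀ P θ P₂ θ₂ Eb e₂ c Pt r hr K₀ g L T Sl κ G S₀ N A V S₂ N' V' K ε q t)
    (_ : Sl (r₀ + 1) = b) (_ : R + 1 ≤ K) (_ : ε ≤ ε₁) (_ : ∀ k < N', |V' k| ≤ K)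
    (_ : ∀ k < N', ∃ rd : ℕ → ℝ, Pool.LA91.Chn S c 0 (r₀ + 1) (t + V' k * q) (t + V' k * q)
      (Pool.SWC.Lx L r₀ (t + V' k * q)) (fun l => L l (t + V' k * q) (t + V' k * q)) rd)
    {μ : ℝ} (_ : ∀ k < N', ∃ E rk : ℝ, 0 ≤ E ∧
      E + L (r₀ + 1) (t + V' k * q) (t + V' k * q) + μ ≤ 1 ∧
      Pool.SWC.Lx L r₀ (t + V' k * q) + μ ≤ 1 ∧
      Pool.V0F.LbU S ((range (r₀ + 1)).image c) (c (r₀ + 1)) (t + V' k * q)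
        (L (r₀ + 1) (t + V' k * q) (t + V' k * q)) rk E)
    {x e₀ ρ₀ π₀ φ e : ℝ} {Kf k₁ : ℕ} (_ : |t - x| ≤ K₁ * q) (_ : Kf ≤ D) (_ : 0 < e)
    (_ : e ≤ e₁) (_ : φ ≤ (1 - h) * b * Real.log 2)
    (_ : ∀ k ≥ k₁, Pool.ALT.AltAt S ((range (r₀ + 1)).image c) ((range r₀).image c) (c (r₀ + 1)) Kf e₀ ρ₀
      π₀ (fun w => L (r₀ + 1) w w) x φ e k)
    (_ : (K₁ + R + 1) * q ≤ (1 / 2) ^ k₁) (_ : ρ₀ ≤ 1) (_ : 0 ≤ e₀) (_ : 0 < μ)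
    (_ : (8 * b + 8 * rr) * q ≤ μ) {i j : ℕ} (_ : i < N') (_ : j < N') (_ : |V' i| ≤ R)
    (_ : |V' j| ≤ R) (_ : lam + gg ≤ b * (V' j - V' i)) (_ : rr + gg ≤ b * (R - V' i))
    (_ : μ ≤ L (r₀ + 1) (t + V' i * q) (t + V' i * q))
    (_ : e₀ + L (r₀ + 1) (t + V' j * q) (t + V' j * q) + μ ≤ 1)
    (_ : π₀ < L (r₀ + 1) (t + V' i * q) (t + V' i * q))
    (_ : L (r₀ + 1) (t + V' i * q) (t + V' i * q) + L r₀ (t + V' i * q) (t + V' i * q) - π₀ < 1)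
    (_ : L (r₀ + 1) (t + V' j * q) (t + V' j * q) + L r₀ (t + V' j * q) (t + V' j * q) - π₀ < 1),
    ∃ S' : Pool.PB.PCl (r₀ + 2), Pool.ALT.SubC S' S ∧
      Pool.W.PKG.RecG S' al g₀ P θ P₂ θ₂ Eb e₂ c Pt r hr K₀ g L T Sl κ G S₀ N A V S₂ N' V' K ε q t ∧
      ∃ (Ψ : Pool.ALT.Fml (r₀ + 2)) (w p₁ p₂ eN uN pN pa₁ pa₂ ea ua pa : ℝ),
        Pool.W.ALT.AlO S' c L D N' V' i j R h δ lam rr ℓ g₂ X η μ e₀ π₀ q t Ψ w p₁ p₂ eN uN pN pa₁ pa₂ ea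
          ua pa := by
  classical
  obtain ⟨D₁, hD₁, halw⟩ := Pool.W.ALT.alw_rec r₀ S₀ hS₀
  obtain ⟨D₀, hD₀, halb⟩ := Pool.W.ALT.alb_rec r₀ S₀ hS₀
  refine ⟨max D₁ D₀, hD₀.trans (le_max_right _ _), ?_⟩
  intro D hD b h δ lam rr gg R K₁ ℓ₀ X g₂ hb hh hh1 hδ hlam hrr hgg hR hK₁ hℓ₀ hX hg₂ hXg
  obtain ⟨ℓ, h₁, ε₁, e₁, hℓ, hℓ₁, hh₁, hε₁, he₁, hη⟩ := halb D ((le_max_right _ _).trans hD) hb hh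
    hh1 hδ hlam hrr hgg hR hK₁ hℓ₀ hX hg₂ hXg
  refine ⟨ℓ, h₁, ε₁, e₁, hℓ, hℓ₁, hh₁, hε₁, he₁, fun η hη0 hη1 => ?_⟩
  intro S al g₀ P θ P₂ θ₂ Eb e₂ c Pt r hr K₀ g L T Sl κ G N A V S₂ N' V' K ε q t Rc hSl hRK hεε'
    hV hch μ hlab x e₀ ρ₀ π₀ φ e Kf k₁ htx hKf he0 he1' hφ hat hk₁ hρ₀ he₀ hμ hμq i j hi hj hVi
    hVj hlg hrg hμs m1 hπv hrv hra
  have hlab' := hlab
  choose! E rk hE0 hE1 hE2 hE3 using hlab'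
  obtain ⟨S₀', hs₀, Rc₀, hlw⟩ := halw Rc (by linarith) hV hch E rk
    (fun k hk => ⟨hE0 k hk, by linarith [hE1 k hk], hE3 k hk⟩)
  obtain ⟨S₁, hs₁, Rc₁, Ψ, w, p₁, p₂, eN, uN, pN, w1, w2, w3, w4, w5, w6, w7, w8, w9, w10, w11,
    w12⟩ := hη η hη0 hη1 Rc₀ hSl hRK hεε' hV (fun k hk => by
      obtain ⟨rd, h1⟩ := hch k hk
      exact ⟨rd, h1.sub hs₀⟩) (fun k hk => by
      obtain ⟨E, rk, h1, h2, h3, h4⟩ := hlab k hk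
      exact ⟨E, rk, h1, h2, h3, h4.sub hs₀⟩) htx hKf he0 he1' hφ
      (fun k hk => (hat k hk).sub hs₀) hk₁ hρ₀ he₀ hμ hμq hi
    hj hVi hVj hlg hrg hμs m1 hπv hrv hra
  obtain ⟨S₂', hs₂, Rc₂, pa₁, pa₂, ea, ua, pa, x1, x2, x3, x4, x5, x6⟩ := Pool.W.ALT.nzq_rec Rc₁
    (w11 (1 - μ / 2) le_rfl (by linarith)) w9
  exact ⟨S₂', fun τ J F A hA => hs₀ τ J F A (hs₁ τ J F A (hs₂ τ J F A hA)), Rc₂, Ψ, w, p₁, p₂, eN,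
    uN, pN, pa₁, pa₂, ea, ua, pa,
    { wv := w1
      wq := w2
      wR := w3
      wl := w4
      wu := w5
      e1 := w6
      u1 := w7
      pN1 := w8
      nzo := w10.sub hs₂
      alp := fun n h1 h2 => (w11 n h1 h2).sub hs₂
      ea0 := x1
      pa1 := x2
      ea1 := x3
      ua1 := x4
      nza := x5
      nzq := x6
      blb := fun k h1 h2 h3 h4 h5 h6 h7 h8 a1 a2 a3 a4 =>
        (w12 k h1 h2 h3 h4 h5 h6 h7 h8 a1 a2 a3 a4).sub hs₂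
      lab := fun k hk => ⟨_, _, (((hlw k hk).deg ((le_max_left _ _).trans hD)).sub
        hs₁).sub hs₂⟩ }⟩

end Pool.W.ALT
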