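import Pool.Agent.H60.ALT.Nbf
import Pool.Agent.H31.W.H60.ALT.Alo
import Pool.Agent.H57.SWC.Lxm

/-!
# The natural labels with labels of the chain

`NbF`: a natural label of the window `v`, with a natural label of the window `a` over the same label
of the family, and labels of the chain at the window `v`, over one code. `nbf_ex`: they exist;
`nbf_npc`, `nbf_lb`, `nbf_row`: the hypotheses of the near path theorem; `nbf_nph`: all of them from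
`AlO`.
-/

set_option autoImplicit false

namespace Pool.W.ALT

open Pool.ALT

open Finset Real MvPolynomial
open Pool.Agent.H49.Ent Pool.Agent.H32.Dense Pool.STK Pool.KA Pool.KSAT Pool.K2S Pool.PB Pool.S6C
  Pool.GEN Pool.RCD Pool.LA91 Pool.OWN68 Pool.PKG
open Pool.UNJ (ceI)
open Pool.GRD (LbP)
open Pool.AJX (LbX)
open Pool.NPZ (Fm4 NpC VaD ChJ NpH)

variable {m : ℕ}


variable {Ψ : Pool.ALT.Fml m} {c : ℕ → Fin m} {r : ℕ} {κ : Fin m} {D : ℕ}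
  {w v p₁ p₂ eN uN pN a pa₁ pa₂ ea ua pa : ℝ} {Kc : ℕ} {e : ℝ} {E rd pc : ℕ → ℝ}


end Pool.W.ALT

namespace Pool.W.ALT

open Pool.ALT

open Finset Real MvPolynomial
open Pool.Agent.H49.Ent Pool.Agent.H32.Dense Pool.STK Pool.KA Pool.KSAT Pool.K2S Pool.PB Pool.S6C
  Pool.GEN Pool.RCD Pool.LA91 Pool.OWN68 Pool.PKG
open Pool.NPZ (Fm4 NpC VaD ChJ NpH)

/-- **The hypotheses of the near path theorem** from `AlO`. -/
theorem nbf_nph {r₀ : ℕ} {S : Pool.PB.PCl (r₀ + 2)} {c : ℕ → Fin (r₀ + 2)} {L : ℕ → ℝ → ℝ → ℝ}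
    {D N' : ℕ} {V' : ℕ → ℝ} {i j : ℕ} {R h δ lam rr ℓ g₂ X η μ e₀ π₀ q t : ℝ}
    {Ψ : Pool.ALT.Fml (r₀ + 2)} {w p₁ p₂ eN uN pN pa₁ pa₂ ea ua pa : ℝ}
    (hpos : ∀ (τ : ℝ) (J : ℕ) (F : Pool.KA.Fam (r₀ + 2) J) (A : F.Ω → Prop), S.St τ J F A →
      0 < Pool.K2S.Pe F.p A)
    (H : Pool.W.ALT.AlO S c L D N' V' i j R h δ lam rr ℓ g₂ X η μ e₀ π₀ q t Ψ w p₁ p₂ eN uN pN pa₁ pa₂ ea
      ua pa) (hμ : 0 ≤ μ) {lamJ q₁ ρ g₀ : ℝ} {E pc s n lv rd : ℕ → ℝ}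
    (hch : Pool.NPZ.ChJ S c 0 r₀ (t + V' i * q) (t + V' j * q) lamJ q₁ ρ g₀ E pc s n lv rd)
    (Kc : ℕ) {e δN δ₂ b : ℝ} (he : 0 < e) (h1 : δ * lam * q / 8 ≤ e) (h8 : e ≤ ρ / 8)
    (hg : e ≤ g₀ / 2) (hδN : δ ≤ δN) (hq₁ : lam * q + δ * lam * q / 8 ≤ q₁) (hδ₂ : 0 < δ₂)
    (hd : δ * (lam * q) / 4 + δ₂ + (r₀ + 1) * ρ < δN * (lam * q) / 2)
    (hL : δ * lam * q / 8 < L (r₀ + 1) (t + V' i * q) (t + V' i * q))
    (hb : t + V' j * q ≤ b) (hb1 : b ≤ 1) :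
    Pool.NPZ.NpH (D * max 1 D) h δN S c 0 r₀ (t + V' i * q) (t + V' j * q) lamJ q₁ ρ g₀ E pc s n lv rd
      (c (r₀ + 1)) ((range (r₀ + 1)).image c) Kc (max 1 (D * max 1 D)) e
      (L (r₀ + 1) (t + V' i * q) (t + V' i * q)) pN pa (lam * q) (δ * (lam * q) / 4 + δ₂) 0
      (max eN uN) b
      (Pool.ALT.NbF Ψ c r₀ (c (r₀ + 1)) D w (t + V' i * q) p₁ p₂ eN uN pN (t + V' j * q) pa₁ pa₂ ea ua pa
        Kc e E rd pc) := by
  have A := H.alp 1 (by linarith) le_rfl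
  have hpN := H.pN1
  have hpp := A.pNp
  have hpa := H.pa1
  have hq0 := A.q0
  have hδq : δ * (lam * q) ≤ δN * (lam * q) := mul_le_mul_of_nonneg_right hδN hq0.le
  have e1 : δ * lam * q / 8 = δ * (lam * q) / 8 := by ring
  rw [e1] at h1 hq₁ hL hpN
  exact
    { ch := hch
      e0 := he
      e8 := h8
      eg := hg
      pN0 := by linarith
      pNP := hpp
      Pe := by linarith
      Pδ := by linarith
      Pa := hpa
      Pq := by linarith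
      q0 := hq0
      vq := A.vq
      wa := hb
      a1 := hb1
      rG0 := le_rfl
      eG0 := lt_max_of_lt_left A.eN0
      dd := hd
      npc := Pool.ALT.nbf_npc (H.fam hμ) A.wv A.va A.a1
      lb := fun J F A V z z' G g h => Pool.ALT.nbf_lb h
      hs := fun J F A' B V z z' G g hB h => Pool.ALT.nbf_hs A.hs J F A' B V z z' G g hB h
      row := fun sa sb k1 k2 k3 => Pool.ALT.nbf_row hpos A k1 k2 (by linarith [A.qr]) hδ₂ }

end Pool.W.ALT
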