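import Pool.Agent.H60.ALT.Nwc
import Pool.Agent.H31.W.H73.D2.Tme
import Pool.Agent.H31.W1.H2.GEN.EvS
import Pool.Agent.H31.W1.H23.D2.Bln
import Pool.Agent.H31.W1.H80.GEN.Chn

/-!
# The slope hypothesis from a blind family

`nwc_B`: on each event with the windows `WG` a label of a blind family is a closed polynomial with
the slopes of the charts: the data `NwC` of the target `N - P (p, u)`.
-/

set_option autoImplicit false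

namespace Pool.W.ALT

open Pool.ALT

open Finset Real MvPolynomial
open Pool.Agent.H49.Ent Pool.Agent.H32.Dense Pool.STK Pool.KA Pool.KSAT Pool.K2S Pool.PB Pool.S6C
  Pool.GEN Pool.RCD Pool.LA91 Pool.OWN68
open Pool.CHT Pool.CHX Pool.ISO Pool.D2R Pool.D2G30 Pool.V1E Pool.CR99
open Pool.UNJ (ceI)
open Pool.GRW (xr xr_near)
open Pool.BFL (Pb)
open Pool.GRD (LbP)
open Pool.PB.Trl (rt rt_mem t_rt)

variable {m : ℕ}

/-- The closed charts are labels of the position. -/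
theorem lbp_ch {J : ℕ} {F : Pool.KA.Fam m J} {c : ℕ → Fin m} {n D a w e : ℕ} {g : ℕ → ℕ}
    {B : F.Ω → Prop} {G : Pool.GEN.PtT F → ℕ → MvPolynomial (Option (Fin m)) ℝ}
    {H : Pool.GEN.LnT F → ℕ → MvPolynomial (Option (Fin m)) ℝ}
    (ch : Pool.W.GEN.ChOK F c n (fun _ => D) a w e g B G H) (cl : Pool.ISO.Clsd F n w B G H) {i : ℕ} (hi : i < n) :
    ∃ (V : Type) (z : Pool.GEN.PtT F → V) (z' : Pool.GEN.LnT F → V) (G' : V → MvPolynomial (Option (Fin m)) ℝ),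
      Pool.GRD.LbP F ((range i).image c) (c i) D J w (g i) B z z' G' ∧ (∀ s, G' (z' s) = H s i) := by
  refine ⟨{P : MvPolynomial (Option (Fin m)) ℝ // P.totalDegree ≤ D ∧ Pool.GEN.DepC c i P},
    fun y => ⟨G y i, ch.degG y i, ch.depG y i⟩, fun s => ⟨H s i, ch.degH s i, ch.depH s i⟩,
    fun v => v.1, ⟨fun v => v.2.1, fun v b b' h0 hb => v.2.2 b b' h0 fun l hl =>
      hb _ (mem_image_of_mem _ (mem_range.2 hl)), fun ω hω => ?_, fun ω hω => ?_⟩, fun _ => rfl⟩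
  · exact Subtype.ext (cl ω hω i hi)
  · show |F.x ω (c i) - eval (Pool.GEN.bt F ω) (H (Pool.KSAT.slam F w ω) i)| ≤ _
    rw [← cl ω hω i hi]
    exact ch.pos ω hω i hi


/-- **The data `NwC` from a blind family.** -/
theorem nwc_B {S : Pool.PB.PCl m} (hpos : ∀ (τ : ℝ) (J : ℕ) (F : Pool.KA.Fam m J)
      (A : F.Ω → Prop), S.St τ J F A → 0 < Pool.K2S.Pe F.p A) {c : ℕ → Fin m} {r D Dw Dr N N₂ : ℕ}
    {R : ℕ → Prop} {C a Eb ε₀ η₀ χ mb : ℝ} {Pt : ℝ → ℝ → ℝ} {o : ℕ → ℝ} {lv be : ℕ → ℕ → ℝ}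
    {κ : ℝ} (hc : Set.InjOn c (Set.Iio (r + 2))) (hN1 : 1 ≤ N) (hN : 3 ≤ N₂) {Kd : ℕ} {w : ℝ}
    (hKw : Kd ≤ Dw) (hDr : D ≤ Dr) (hKr : Kd ≤ Dr) (hwo : w ≤ o 0) (h01 : o 0 ≤ o 1)
    (h03 : o 0 ≤ o 3) (ho1 : o 1 ≤ 1) (ho3 : o 3 ≤ 1) (hη₀ : 0 < η₀) (hκ : κ ≤ 1 / 4)
    (hmb : o 3 - o 0 ≤ mb) (ho0 : 0 ≤ o 0) (hoa : o 1 ≤ a) (hχ : 0 ≤ χ) (hε₀ : 0 ≤ ε₀)
    (hl0 : 0 ≤ lv 0 (r + 1)) (hl0r : 0 ≤ lv 0 r)
    {Ψ : ∀ (J : ℕ) (F : Pool.KA.Fam m J), (F.Ω → Prop) → ∀ V : Type, (Pool.GEN.PtT F → V) →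
      (Pool.GEN.LnT F → V) → (V → MvPolynomial (Option (Fin m)) ℝ) → Prop}
    (hΨd : ∀ (J : ℕ) (F : Pool.KA.Fam m J) (A : F.Ω → Prop) (V : Type) (z : Pool.GEN.PtT F → V) (z' : Pool.GEN.LnT F → V)
      (G : V → MvPolynomial (Option (Fin m)) ℝ), Ψ J F A V z z' G →
      (∀ y, (G y).totalDegree ≤ Kd) ∧ (∀ y, Pool.ALT.DpI ((range (r + 1)).image c) (G y)) ∧
      ∀ ω, A ω → z (Pool.PB.ptr F J ω) = z' (Pool.KSAT.slam F ⌊w * J⌋₊ ω))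
    {p q x : ℕ → ℝ}
    (hB0 : Pool.ALT.BlB S c r (c (r + 1)) w (o 0) D D (p 0) (q 0) (x 0) Ψ)
    (hB1 : Pool.ALT.BlB S c r (c (r + 1)) w (o 1) D D (p 1) (q 1) (x 1) Ψ)
    (hB3 : Pool.ALT.BlB S c r (c (r + 1)) w (o 3) D D (p 3) (q 3) (x 3) Ψ)
    (hp : ∀ k, p k < lv k (r + 1) - η₀) (hq : ∀ k, q k < lv k r - η₀)
    (hx0 : x 0 + η₀ < lv 0 r - lv 0 (r + 1) + χ)
    (hx3 : x 3 + 2 * η₀ < lv 3 r - lv 0 (r + 1) - mb + χ)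
    (hx1 : x 1 < lv 0 r - lv 0 (r + 1) - (mb - (o 3 - o 0)) + χ)
    {qr gm : ℝ} (hqr0 : 0 ≤ qr) (hqr1 : qr + C * η₀ ≤ Pt a (o 0) - 2 * (C * η₀))
    (hqr2 : qr + C * η₀ < lv 1 (r + 1) + (a - o 1) - η₀)
    (hgR : R r → lv 1 r + (a - o 1) ≤ gm) (hgN : ¬ R r → be 1 r ≤ gm)
    (hrow : C * η₀ + gm - qr < lv 0 r - lv 0 (r + 1) - (mb - (o 3 - o 0)) + χ) :
    Pool.S6C.Bas S (fun J F B => ∀ (V : Type) (z : Pool.GEN.PtT F → V) (z' : Pool.GEN.LnT F → V)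
      (Gp : V → MvPolynomial (Option (Fin m)) ℝ), Ψ J F B V z z' Gp →
      ∀ (b : ℕ → ℕ → ℝ) (zz : ℕ → ℕ → ℕ) (gc gT g₀ : ℕ → ℕ → ℕ)
      (G : ℕ → Pool.GEN.PtT F → ℕ → MvPolynomial (Option (Fin m)) ℝ)
      (H : ℕ → Pool.GEN.LnT F → ℕ → MvPolynomial (Option (Fin m)) ℝ)
      (T : ℕ → Pool.GEN.PtT F → ℕ → MvPolynomial (Option (Fin m)) ℝ)
      (TH : ℕ → Pool.GEN.LnT F → ℕ → MvPolynomial (Option (Fin m)) ℝ)
      (Gt : ℕ → Pool.GEN.PtT F → MvPolynomial (Option (Fin m)) ℝ)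
      (Ht : ℕ → Pool.GEN.LnT F → MvPolynomial (Option (Fin m)) ℝ),
      Pool.W.V1E.WG c (r + 1) D Dr N N₂ R C a Eb ε₀ η₀ Pt o lv be F b κ zz B gc gT g₀ G H T TH Gt Ht →
      ∃ B₂ : F.Ω → Prop, Pool.K2S.Sub B₂ B ∧ Pool.K2S.Pe F.p B ≤ 8 * Pool.K2S.Pe F.p B₂ ∧
        Pool.V1E.NwC F c r Dw ⌊mb * J⌋₊ (⌊o 3 * J⌋₊ - ⌊o 0 * J⌋₊) ⌊χ * J⌋₊ ⌊lv 0 r * J⌋₊
          ⌊lv 0 (r + 1) * J⌋₊ (fun k => ⌊o (Pool.V1E.fr4 k) * J⌋₊) (fun k => g₀ (Pool.V1E.fr4 k)) B₂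
          (fun k => G (Pool.V1E.fr4 k)) (Ht 0) (fun L => Gp (Pool.ALT.wz z' ⌊w * J⌋₊ ⌊o 0 * J⌋₊ L))
          (fun y => Gp (z y))) := by
  classical
  have big : ∀ {x y : ℝ}, 0 < x → ∃ J₀ : ℕ, ∀ J : ℕ, J₀ ≤ J → y ≤ x * J := by
    intro x y hx
    refine ⟨⌈y / x⌉₊, fun J hJ => ?_⟩
    have h1 : y / x ≤ J := (Nat.le_ceil _).trans (by exact_mod_cast hJ)
    rw [div_le_iff₀ hx] at h1
    linarith
  have hC1 : ∃ χ' : ℝ, 0 < χ' ∧ (∀ k, k = 0 ∨ k = 1 ∨ k = 3 → p k + χ' ≤ lv k (r + 1) - η₀ ∧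
      q k + χ' ≤ lv k r - η₀) := by
    refine ⟨min (min (min (lv 0 (r + 1) - η₀ - p 0) (lv 1 (r + 1) - η₀ - p 1))
      (lv 3 (r + 1) - η₀ - p 3)) (min (min (lv 0 r - η₀ - q 0) (lv 1 r - η₀ - q 1))
      (lv 3 r - η₀ - q 3)), ?_, ?_⟩
    · refine lt_min (lt_min (lt_min ?_ ?_) ?_) (lt_min (lt_min ?_ ?_) ?_)
      · linarith [hp 0]
      · linarith [hp 1]
      · linarith [hp 3]
      · linarith [hq 0]
      · linarith [hq 1]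
      · linarith [hq 3]
    · obtain ⟨a1, ha1⟩ : ∃ t, t = lv 0 (r + 1) - η₀ - p 0 := ⟨_, rfl⟩
      obtain ⟨a2, ha2⟩ : ∃ t, t = lv 1 (r + 1) - η₀ - p 1 := ⟨_, rfl⟩
      obtain ⟨a3, ha3⟩ : ∃ t, t = lv 3 (r + 1) - η₀ - p 3 := ⟨_, rfl⟩
      obtain ⟨b1, hb1⟩ : ∃ t, t = lv 0 r - η₀ - q 0 := ⟨_, rfl⟩
      obtain ⟨b2, hb2⟩ : ∃ t, t = lv 1 r - η₀ - q 1 := ⟨_, rfl⟩
      obtain ⟨b3, hb3⟩ : ∃ t, t = lv 3 r - η₀ - q 3 := ⟨_, rfl⟩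
      rw [← ha1, ← ha2, ← ha3, ← hb1, ← hb2, ← hb3]
      have i1 : min (min (min a1 a2) a3) (min (min b1 b2) b3) ≤ a1 :=
        (min_le_left _ _).trans ((min_le_left _ _).trans (min_le_left _ _))
      have i2 : min (min (min a1 a2) a3) (min (min b1 b2) b3) ≤ a2 :=
        (min_le_left _ _).trans ((min_le_left _ _).trans (min_le_right _ _))
      have i3 : min (min (min a1 a2) a3) (min (min b1 b2) b3) ≤ a3 :=
        (min_le_left _ _).trans (min_le_right _ _)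
      have j1 : min (min (min a1 a2) a3) (min (min b1 b2) b3) ≤ b1 :=
        (min_le_right _ _).trans ((min_le_left _ _).trans (min_le_left _ _))
      have j2 : min (min (min a1 a2) a3) (min (min b1 b2) b3) ≤ b2 :=
        (min_le_right _ _).trans ((min_le_left _ _).trans (min_le_right _ _))
      have j3 : min (min (min a1 a2) a3) (min (min b1 b2) b3) ≤ b3 :=
        (min_le_right _ _).trans (min_le_right _ _)
      rintro k (rfl | rfl | rfl)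
      · constructor <;> linarith
      · constructor <;> linarith
      · constructor <;> linarith
  obtain ⟨χ', hχ', hpq⟩ := hC1
  obtain ⟨J₁, hJ₁⟩ := big (x := lv 0 r - lv 0 (r + 1) + χ - (x 0 + η₀)) (y := 2) (by linarith)
  obtain ⟨J₂, hJ₂⟩ := big (x := lv 3 r - lv 0 (r + 1) - mb + χ - (x 3 + 2 * η₀)) (y := 1)
    (by linarith)
  obtain ⟨J₃, hJ₃⟩ := big (x := lv 0 r - lv 0 (r + 1) - (mb - (o 3 - o 0)) + χ - x 1) (y := 4)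
    (by linarith)
  obtain ⟨J₄, hJ₄⟩ := big (x := lv 0 r - lv 0 (r + 1) - (mb - (o 3 - o 0)) + χ -
    (C * η₀ + gm - qr)) (y := 6) (by linarith)
  obtain ⟨J₅, hJ₅⟩ := big (x := lv 1 (r + 1) + (a - o 1) - η₀ - (qr + C * η₀)) (y := 1)
    (by linarith)
  have hcr : Set.InjOn c (Set.Iio (r + 1)) := hc.mono fun y hy => by
    rw [Set.mem_Iio] at hy ⊢
    omega
  refine Pool.S6C.Bas.mono (J₁ + J₂ + J₃ + J₄ + J₅) (((hB0 (1 / 8) χ' (by norm_num) hχ').and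
    (hB1 (1 / 8) χ' (by norm_num) hχ')).and ((hB3 (1 / 8) χ' (by norm_num) hχ').and
    (Pool.LA91.pos_bas hpos))) ?_
  rintro J hJ F B ⟨⟨K0, K1⟩, K3, hB⟩ V z z' Gp hΨ b zz gc gT g₀ G H T TH Gt Ht W
  have j1 := hJ₁ J (by omega)
  have j2 := hJ₂ J (by omega)
  have j3 := hJ₃ J (by omega)
  have j4 := hJ₄ J (by omega)
  have j5 := hJ₅ J (by omega)
  have hJ0 : (0 : ℝ) ≤ J := Nat.cast_nonneg J
  have mulJ : ∀ {x y : ℝ}, x ≤ y → x * J ≤ y * J := fun h => mul_le_mul_of_nonneg_right h hJ0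
  obtain ⟨hGd, hGp, hGc⟩ := hΨd J F B V z z' Gp hΨ
  -- the charts
  have hev : ∀ k ≤ N₂, Pool.W.GEN.ChOK F c (r + 2) (fun _ => D) ⌊o k * J⌋₊ ⌊o k * J⌋₊
      ⌊(Eb + η₀ + η₀) * J⌋₊ (g₀ k) B (G k) (H k) ∧ Pool.ISO.Clsd F (r + 2) ⌊o k * J⌋₊ B (G k) (H k) ∧
      Pool.CHT.RelvF F c (r + 1) ⌊o k * J⌋₊ ⌊o k * J⌋₊ (g₀ k) Dr ⌊η₀ * J⌋₊ κ B (G k) ∧
      ∀ l ≤ r + 1, (lv k l - η₀) * J ≤ g₀ k l := fun k hk =>
    ⟨(W.wb.ev k hk).ball, (W.wb.ev k hk).cls, (W.wb.ev k hk).relb,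
      fun l hl => (W.wb.sds k hk l hl).1⟩
  have hsl : ∀ k, k = 0 ∨ k = 1 ∨ k = 3 → ∀ (y : ℝ) (_ : y = x k),
      (∀ (P₁ : ℕ) (V₁ : Type) (z₁ : Pool.GEN.PtT F → V₁) (z₁' : Pool.GEN.LnT F → V₁)
      (G₁ : V₁ → MvPolynomial (Option (Fin m)) ℝ),
      Pool.GRD.LbP F ((range (r + 1)).image c) (c (r + 1)) D J ⌊o k * J⌋₊ P₁ B z₁ z₁' G₁ →
      (p k + χ') * J ≤ P₁ → ∀ (P₂ : ℕ) (V₂ : Type) (z₂ : Pool.GEN.PtT F → V₂) (z₂' : Pool.GEN.LnT F → V₂)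
      (H : V₂ → MvPolynomial (Option (Fin m)) ℝ),
      Pool.GRD.LbP F ((range r).image c) (c r) D J ⌊o k * J⌋₊ P₂ B z₂ z₂' H → (q k + χ') * J ≤ P₂ →
      Pool.BFL.Pb (Pool.Agent.H49.Ent.cond F.p B True) (fun ω => (2 : ℝ) ^ (x k * J) <
        |eval (Pool.GEN.bt F ω) (pderiv (some (c r)) (G₁ (z₁' (Pool.KSAT.slam F ⌊o k * J⌋₊ ω)) -
          Gp (z' (Pool.KSAT.slam F ⌊w * J⌋₊ ω))))|) ≤ 1 / 8) →
      Pool.BFL.Pb (Pool.Agent.H49.Ent.cond F.p B True) (fun ω => (2 : ℝ) ^ (x k * J) <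
        |eval (Pool.GEN.bt F ω) (pderiv (some (c r)) (H k (Pool.KSAT.slam F ⌊o k * J⌋₊ ω) (r + 1) -
          Gp (z' (Pool.KSAT.slam F ⌊w * J⌋₊ ω))))|) ≤ 1 / 8 := by
    intro k hk _ _ h1
    have hk2 : k ≤ N₂ := by rcases hk with h | h | h <;> omega
    obtain ⟨c1, c2, -, c4⟩ := hev k hk2
    obtain ⟨V₁, z₁, z₁', G₁, d1, d2⟩ := Pool.W.ALT.lbp_ch c1 c2 (i := r + 1) (by omega)
    obtain ⟨V₂, z₂, z₂', G₂, e1, e2⟩ := Pool.W.ALT.lbp_ch c1 c2 (i := r) (by omega)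
    have h2 := h1 (g₀ k (r + 1)) V₁ z₁ z₁' G₁ d1 ((mulJ (hpq k hk).1).trans (c4 _ le_rfl))
      (g₀ k r) V₂ z₂ z₂' G₂ e1 ((mulJ (hpq k hk).2).trans (c4 _ (by omega)))
    simp only [d2] at h2
    exact h2
  have s0 := hsl 0 (Or.inl rfl) _ rfl (K0 V z z' Gp hΨ)
  have s1 := hsl 1 (Or.inr (Or.inl rfl)) _ rfl (K1 V z z' Gp hΨ)
  have s3 := hsl 3 (Or.inr (Or.inr rfl)) _ rfl (K3 V z z' Gp hΨ)
  obtain ⟨bad, hbad⟩ : ∃ bad : ℕ → F.Ω → Prop, bad = fun k ω => (2 : ℝ) ^ (x k * J) <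
        |eval (Pool.GEN.bt F ω) (pderiv (some (c r)) (H k (Pool.KSAT.slam F ⌊o k * J⌋₊ ω) (r + 1) -
          Gp (z' (Pool.KSAT.slam F ⌊w * J⌋₊ ω))))| := ⟨_, rfl⟩
  have t := Pool.ALT.pe_three F.isLaw.nonneg hB (bad 0) (bad 1) (bad 3) (η := 1 / 8)
    (by rw [hbad]; exact s0) (by rw [hbad]; exact s1) (by rw [hbad]; exact s3)
  obtain ⟨B₁, hB₁⟩ : ∃ B₁ : F.Ω → Prop, B₁ = fun ω => B ω ∧ ¬ (bad 0 ω ∨ bad 1 ω ∨ bad 3 ω) :=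
    ⟨_, rfl⟩
  rw [← hB₁] at t
  have hB₁B : Pool.K2S.Sub B₁ B := fun ω hω => by
    rw [hB₁] at hω
    exact hω.1
  have hgood : ∀ ω, B₁ ω → ∀ k, k = 0 ∨ k = 1 ∨ k = 3 →
      |eval (Pool.GEN.bt F ω) (pderiv (some (c r)) (H k (Pool.KSAT.slam F ⌊o k * J⌋₊ ω) (r + 1) -
          Gp (z' (Pool.KSAT.slam F ⌊w * J⌋₊ ω))))| ≤ (2 : ℝ) ^ (x k * J) := by
    intro ω hω k hk
    rw [hB₁] at hω
    have h1 : ¬ bad k ω := by
      rcases hk with rfl | rfl | rfl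
      · exact fun h => hω.2 (Or.inl h)
      · exact fun h => hω.2 (Or.inr (Or.inl h))
      · exact fun h => hω.2 (Or.inr (Or.inr h))
    rw [hbad] at h1
    exact not_lt.1 h1
  -- the boxes
  have hbox : ∀ k, k = 0 ∨ k = 3 → ∀ B' : F.Ω → Prop, Pool.K2S.Sub B' B₁ → κ * Pool.K2S.Pe F.p B ≤ Pool.K2S.Pe F.p B' →
      ∃ B'' : F.Ω → Prop, Pool.K2S.Sub B'' B' ∧ Pool.K2S.Pe F.p B' / 2 ≤ Pool.K2S.Pe F.p B'' ∧ ∀ ω, B'' ω →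
        ∀ bb, Pool.GEN.NBx c (G k (Pool.PB.ptr F J ω)) (g₀ k) ⌊o k * J⌋₊ (F.t ω) (r + 1) bb →
        |eval bb (pderiv (some (c r)) (G k (Pool.PB.ptr F J ω) (r + 1))) -
          eval bb (pderiv (some (c r)) (Gp (z (Pool.PB.ptr F J ω))))| ≤
          2 ^ ⌊η₀ * J⌋₊ * 2 ^ (x k * J) := by
    intro k hk B' hB' hκB
    have hk2 : k ≤ N₂ := by rcases hk with h | h <;> omega
    have hok : o k ≤ 1 := by rcases hk with rfl | rfl <;> linarith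
    have hwk : w ≤ o k := by rcases hk with rfl | rfl <;> linarith
    obtain ⟨c1, c2, c3, -⟩ := hev k hk2
    obtain ⟨f1, f2⟩ := Pool.ALT.floorw hwk hok J
    have hdeg : ∀ P Q : MvPolynomial (Option (Fin m)) ℝ, P.totalDegree ≤ D →
        Q.totalDegree ≤ Kd → (pderiv (some (c r)) (P - Q)).totalDegree ≤ Dr := fun P Q h1 h2 =>
      (Pool.ALT.pd_dg _ _).trans ((totalDegree_sub _ _).trans (max_le (h1.trans hDr) (h2.trans hKr)))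
    have hdep : ∀ P Q : MvPolynomial (Option (Fin m)) ℝ, Pool.GEN.DepC c (r + 1) P →
        Pool.ALT.DpI ((range (r + 1)).image c) Q → Pool.GEN.DepC c (r + 1) (pderiv (some (c r)) (P - Q)) := by
      intro P Q h1 h2
      have h3 : Pool.GEN.DepC c (r + 1) (P - Q) := fun b b' h4 h5 => by
        rw [map_sub, map_sub, h1 b b' h4 h5, h2 b b' h4 fun i hi => by
          obtain ⟨l, hl, rfl⟩ := mem_image.1 hi
          exact h5 l (mem_range.1 hl)]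
      exact h3.pderiv _
    have heq : ∀ ω, B' ω → G k (Pool.PB.ptr F J ω) (r + 1) - Gp (z (Pool.PB.ptr F J ω)) =
        H k (Pool.KSAT.slam F ⌊o k * J⌋₊ ω) (r + 1) - Gp (z' (Pool.KSAT.slam F ⌊w * J⌋₊ ω)) := by
      intro ω hω
      rw [c2 ω (hB₁B ω (hB' ω hω)) (r + 1) (by omega), hGc ω (hB₁B ω (hB' ω hω))]
    obtain ⟨B'', d1, d2, d3⟩ := c3 B' (fun ω hω => hB₁B ω (hB' ω hω)) hκB
      (fun y => pderiv (some (c r)) (G k y (r + 1) - Gp (z y)))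
      (fun s => pderiv (some (c r)) (H k s (r + 1) - Gp (Pool.ALT.wz z' ⌊w * J⌋₊ ⌊o k * J⌋₊ s)))
      (2 ^ (x k * J)) (fun y => hdeg _ _ (c1.degG y _) (hGd _))
      (fun s => hdeg _ _ (c1.degH s _) (hGd _)) (fun y => hdep _ _ (c1.depG y _) (hGp _))
      (fun s => hdep _ _ (c1.depH s _) (hGp _)) (Real.rpow_pos_of_pos (by norm_num) _)
      (fun ω hω => by
        beta_reduce
        rw [heq ω hω]
        exact hgood ω (hB' ω hω) k (by tauto))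
      (fun ω hω bb _ => by
        beta_reduce
        rw [heq ω hω, Pool.ALT.wz_slam z' f1 f2, sub_self, abs_zero]
        exact (Real.rpow_pos_of_pos (by norm_num) _).le)
    refine ⟨B'', d1, d2, fun ω hω bb hb => ?_⟩
    have := d3 ω hω bb hb
    rw [map_sub, map_sub] at this
    exact this
  have t1 : Pool.K2S.Pe F.p B ≤ 8 / 5 * Pool.K2S.Pe F.p B₁ := by linarith
  obtain ⟨B₂, d1, d2, d3⟩ := hbox 0 (Or.inl rfl) B₁ (fun ω h => h) (by nlinarith)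
  obtain ⟨B₃, e1, e2, e3⟩ := hbox 3 (Or.inr rfl) B₂ d1 (by nlinarith)
  refine ⟨B₃, fun ω hω => hB₁B ω (d1 ω (e1 ω hω)), by linarith, ?_⟩
  have hf0 : Pool.V1E.fr4 0 = 2 := rfl
  have hf1 : Pool.V1E.fr4 1 = 0 := rfl
  have hf2 : Pool.V1E.fr4 2 = 3 := rfl
  obtain ⟨f1, f2⟩ := Pool.ALT.floorw hwo (h01.trans ho1) J
  have hGpC : ∀ v, Pool.GEN.DepC c (r + 1) (Gp v) := fun v b b' h4 h5 => hGp v b b' h4 fun i hi => by
    obtain ⟨l, hl, rfl⟩ := mem_image.1 hi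
    exact h5 l (mem_range.1 hl)
  have kχ := Pool.ALT.flb (mul_nonneg hχ hJ0)
  have k0r := Pool.ALT.flb (mul_nonneg hl0r hJ0)
  have k0 := Pool.ALT.flb (mul_nonneg hl0 hJ0)
  have kη := Pool.ALT.flb (mul_nonneg hη₀.le hJ0)
  have hmb0 : 0 ≤ mb := by linarith
  have kmb := Pool.ALT.flb (mul_nonneg hmb0 hJ0)
  refine ⟨fun L => (hGd _).trans hKw, fun y => (hGd _).trans hKw, fun L => hGpC _,
    fun y => hGpC _, fun ω hω => ?_, fun ω hω bb hb => ?_, fun ω hω bb hb => ?_,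
    fun ω hω => ?_⟩
  · have hBω := hB₁B ω (d1 ω (e1 ω hω))
    show Gp (z (Pool.PB.ptr F J ω)) = Gp (Pool.ALT.wz z' ⌊w * J⌋₊ ⌊o 0 * J⌋₊ (Pool.KSAT.slam F ⌊o (Pool.V1E.fr4 1) * J⌋₊ ω))
    rw [hf1, Pool.ALT.wz_slam z' f1 f2, hGc ω hBω]
  · refine (d3 ω (e1 ω hω) bb hb).trans ?_
    rw [← Real.rpow_natCast, ← Real.rpow_add (by norm_num)]
    refine Pool.ALT.rp_le ?_
    push_cast
    nlinarith [kχ.2, k0r.2, k0.1, kη.1]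
  · refine (e3 ω hω bb hb).trans ?_
    rw [← Real.rpow_natCast, ← Real.rpow_add (by norm_num)]
    refine Pool.ALT.rp_le ?_
    have hg := (hev 3 hN).2.2.2 r (by omega)
    show _ ≤ ((g₀ 3 r + ⌊χ * J⌋₊ : ℕ) : ℝ)
    push_cast
    nlinarith [kχ.2, k0.1, kη.1, kmb.1]
  · -- the row label
    have hBω := hB₁B ω (d1 ω (e1 ω hω))
    have ho0J : ⌊o 0 * J⌋₊ ≤ J := f2
    have ho1J : ⌊o 1 * J⌋₊ ≤ J := Pool.RCD.floor_le ho1 J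
    obtain ⟨qn, hqn⟩ : ∃ qn : ℕ, qn = ⌊qr * J⌋₊ := ⟨_, rfl⟩
    have kq := Pool.ALT.flb (mul_nonneg hqr0 hJ0)
    rw [← hqn] at kq
    have ho1a := W.win.ho 1 hN1
    have ko1 := Pool.ALT.flb (mul_nonneg ho1a.1 hJ0)
    have ha0 : 0 ≤ a := ho1a.1.trans ho1a.2
    have ka := Pool.ALT.flb (mul_nonneg ha0 hJ0)
    have ho1a' : ⌊o 1 * (J : ℝ)⌋₊ ≤ ⌊a * (J : ℝ)⌋₊ := Nat.floor_le_floor (mulJ ho1a.2)
    have hsub : ((⌊a * (J : ℝ)⌋₊ - ⌊o 1 * (J : ℝ)⌋₊ : ℕ) : ℝ) =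
        (⌊a * (J : ℝ)⌋₊ : ℝ) - ⌊o 1 * (J : ℝ)⌋₊ := Nat.cast_sub ho1a'
    have hSd := W.win.sds 1 hN1
    have hgc := hSd.c1 (r + 1) le_rfl
    rw [hsub] at hgc
    have hro := W.win.row 0 (by omega) 1 hN1 h01 qn (by
      beta_reduce
      have := mulJ hqr1
      nlinarith [kq.1]) (by
      beta_reduce
      nlinarith [kq.1, ko1.1, ka.2])
    have hE := W.win.evs 1 hN1
    have hgT : (gT 1 r : ℝ) ≤ gm * J + 1 := by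
      by_cases hRr : R r
      · rw [(hE.rgh r (by omega) hRr).1]
        have h2 := hSd.c2 r (by omega)
        rw [hsub] at h2
        have h3 := mulJ (hgR hRr)
        have h4 := mul_nonneg hε₀ hJ0
        nlinarith [ko1.2, ka.1]
      · have h2 := hSd.t2 r (by omega) hRr
        have h3 := mulJ (hgN hRr)
        have h4 := mul_nonneg hε₀ hJ0
        nlinarith
    have hwin := hro.win ω hBω (Pool.PB.Trl.rt F ⌊o 1 * J⌋₊ ω) (Pool.PB.Trl.rt_mem F ⌊o 1 * J⌋₊ ω) (Pool.CR99.eu (c r))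
    rw [Pool.D2R.ptw_rt F ho1J, Pool.CR99.nrm_eu hcr (fun l => hE.thin.depH _ l), Pool.CR99.dd_eu, map_sub, map_sub,
      Pool.CR99.pd_Hno] at hwin
    have hgd := hgood ω (d1 ω (e1 ω hω)) 1 (Or.inr (Or.inl rfl))
    rw [map_sub, map_sub] at hgd
    show |eval (Pool.GEN.bt F ω) (pderiv (some (c r)) (Ht 0 (Pool.KSAT.slam F ⌊o (Pool.V1E.fr4 1) * J⌋₊ ω))) -
      eval (Pool.GEN.bt F ω) (pderiv (some (c r)) (Gp (z (Pool.PB.ptr F J ω))))| ≤ _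
    rw [hf1, hGc ω hBω]
    have e4 : eval (Pool.GEN.bt F ω) (pderiv (some (c r)) (Ht 0 (Pool.KSAT.slam F ⌊o 0 * J⌋₊ ω))) -
        eval (Pool.GEN.bt F ω) (pderiv (some (c r)) (Gp (z' (Pool.KSAT.slam F ⌊w * J⌋₊ ω)))) =
        (eval (Pool.GEN.bt F ω) (pderiv (some (c r)) (Ht 0 (Pool.KSAT.slam F ⌊o 0 * J⌋₊ ω))) -
          eval (Pool.GEN.bt F ω) (pderiv (some (c r)) (H 1 (Pool.KSAT.slam F ⌊o 1 * J⌋₊ ω) (r + 1)))) +
        (eval (Pool.GEN.bt F ω) (pderiv (some (c r)) (H 1 (Pool.KSAT.slam F ⌊o 1 * J⌋₊ ω) (r + 1))) -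
          eval (Pool.GEN.bt F ω) (pderiv (some (c r)) (Gp (z' (Pool.KSAT.slam F ⌊w * J⌋₊ ω))))) := by ring
    rw [e4]
    refine (abs_add_le _ _).trans ?_
    -- the two halves
    have kC : ((⌊C * (η₀ * J)⌋₊ : ℕ) : ℝ) ≤ C * (η₀ * J) := by
      have hC1' := W.win.C1
      exact Nat.floor_le (mul_nonneg (by linarith) (mul_nonneg hη₀.le hJ0))
    obtain ⟨Q, hQ⟩ : ∃ Q : ℕ, Q = ⌊mb * J⌋₊ - (⌊o 3 * J⌋₊ - ⌊o 0 * J⌋₊) := ⟨_, rfl⟩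
    have hQb : (Q : ℝ) ≤ (mb - (o 3 - o 0)) * J + 1 := by
      have ko3 := Pool.ALT.flb (mul_nonneg (ho0.trans h03) hJ0)
      have ko0 := Pool.ALT.flb (mul_nonneg ho0 hJ0)
      have h5 : ⌊o 0 * (J : ℝ)⌋₊ ≤ ⌊o 3 * (J : ℝ)⌋₊ := Nat.floor_le_floor (mulJ h03)
      rcases le_total ⌊mb * (J : ℝ)⌋₊ (⌊o 3 * (J : ℝ)⌋₊ - ⌊o 0 * (J : ℝ)⌋₊) with h6 | h6
      · rw [hQ, Nat.sub_eq_zero_of_le h6, Nat.cast_zero]
        have := mul_nonneg (sub_nonneg.2 hmb) hJ0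
        linarith
      · rw [hQ, Nat.cast_sub h6, Nat.cast_sub h5]
        nlinarith [ko3.2, ko0.1, kmb.1]
    rw [← hQ]
    have hh : ∀ t : ℝ, t + 1 + ((⌊lv 0 (r + 1) * J⌋₊ + Q : ℕ) : ℝ) ≤
        ((⌊lv 0 r * J⌋₊ + ⌊χ * J⌋₊ : ℕ) : ℝ) → (2 : ℝ) ^ t ≤
        2 ^ (⌊lv 0 r * J⌋₊ + ⌊χ * J⌋₊) / 2 ^ (⌊lv 0 (r + 1) * J⌋₊ + Q) / 2 := by
      intro t ht
      have h5 := Pool.ALT.rp_le ht
      rw [Real.rpow_add (by norm_num), Real.rpow_one] at h5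
      linarith
    have h7 : (2 : ℝ) ^ ⌊C * (η₀ * J)⌋₊ / 2 ^ qn * 2 ^ gT 1 r ≤
        2 ^ (C * (η₀ * J) + (gm * J + 1) - (qr * J - 1)) := by
      rw [Real.rpow_sub (by norm_num), Real.rpow_add (by norm_num)]
      have a1 : (2 : ℝ) ^ ⌊C * (η₀ * J)⌋₊ ≤ 2 ^ (C * (η₀ * J)) := by
        rw [← Real.rpow_natCast]
        exact Real.rpow_le_rpow_of_exponent_le (by norm_num) kC
      have a2 : (2 : ℝ) ^ gT 1 r ≤ 2 ^ (gm * J + 1) := by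
        rw [← Real.rpow_natCast]
        exact Real.rpow_le_rpow_of_exponent_le (by norm_num) hgT
      have a3 : (2 : ℝ) ^ (qr * J - 1) ≤ 2 ^ qn := by
        rw [← Real.rpow_natCast]
        exact Real.rpow_le_rpow_of_exponent_le (by norm_num) kq.2
      rw [div_mul_eq_mul_div]
      exact div_le_div₀ (by positivity) (mul_le_mul a1 a2 (by positivity) (by positivity))
        (by positivity) a3
    have h8 := h7.trans (hh _ (by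
      push_cast
      nlinarith [kχ.2, k0r.2, k0.1]))
    have h9 := hh (x 1 * J) (by
      push_cast
      nlinarith [kχ.2, k0r.2, k0.1])
    linarith [hwin, hgd]

end Pool.W.ALT
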